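import Mathlib

/-!
# Dilates of the integers inside sets of reals which are dense in long windows

If a measurable set `U` of reals has density `ρ + ε` in arbitrarily long windows, then for some
`r ≥ 1` and arbitrarily divisible `Q` the sets `{n : r Q n ∈ U}` have density `ρ + ε / 4` in
arbitrarily long windows.
-/

set_option autoImplicit false

namespace Pool.Agent.R524.LP

open MeasureTheory Set Filter

/-- points which belong to infinitely many sets of measure at least `κ` -/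
theorem limsup_ge {F : ℕ → Set ℝ} (hF : ∀ k, MeasurableSet (F k)) {a b κ : ℝ}
    (hsub : ∀ k, F k ⊆ Icc a b) (k₀ : ℕ) (h : ∀ k, k₀ ≤ k → ENNReal.ofReal κ ≤ volume (F k)) :
    ∃ G : Set ℝ, MeasurableSet G ∧ G ⊆ Icc a b ∧ ENNReal.ofReal κ ≤ volume G ∧
      ∀ r ∈ G, ∀ n : ℕ, ∃ k, n ≤ k ∧ r ∈ F k := by
  have hA : ∀ n, MeasurableSet (⋃ k, ⋃ (_ : n ≤ k), F k) := fun n =>
    MeasurableSet.iUnion fun k => MeasurableSet.iUnion fun _ => hF k
  have hsubA : ∀ n, (⋃ k, ⋃ (_ : n ≤ k), F k) ⊆ Icc a b := fun n =>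
    iUnion_subset fun k => iUnion_subset fun _ => hsub k
  refine ⟨⋂ n, ⋃ k, ⋃ (_ : n ≤ k), F k, MeasurableSet.iInter hA,
    (iInter_subset _ 0).trans (hsubA 0), ?_, ?_⟩
  · have hanti : Antitone fun n => ⋃ k, ⋃ (_ : n ≤ k), F k := by
      intro m n hmn
      exact iUnion_mono fun k => iUnion_subset fun hk => subset_iUnion_of_subset (hmn.trans hk) le_rfl
    have hlim := tendsto_measure_iInter_atTop (μ := volume) (fun n => (hA n).nullMeasurableSet) hanti
      ⟨0, ((measure_mono (hsubA 0)).trans_lt (by rw [Real.volume_Icc]; exact ENNReal.ofReal_lt_top)).ne⟩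
    refine ge_of_tendsto hlim (Eventually.of_forall fun n => ?_)
    refine (h (max n k₀) (le_max_right _ _)).trans (measure_mono ?_)
    exact subset_iUnion_of_subset (max n k₀) (subset_iUnion_of_subset (le_max_left _ _) le_rfl)
  · intro r hr n
    have := mem_iInter.1 hr n
    simp only [mem_iUnion] at this
    obtain ⟨k, hk, hk'⟩ := this
    exact ⟨k, hk, hk'⟩

/-- the weight of the multiples of `Q` around `x` -/
theorem weight_lower {Q : ℕ} (hQ : 1 ≤ Q) {δ x : ℝ} (hδ : 0 < δ) (N : ℕ) (hx0 : 0 < x)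
    (hxN : ⌊x / Q⌋₊ ≤ N) :
    δ / ((1 + δ) * Q) - 1 / x ≤ ∑ n ∈ Finset.Icc 1 N,
      if ((Q : ℝ) * n ≤ x ∧ x ≤ (1 + δ) * ((Q : ℝ) * n)) then 1 / ((Q : ℝ) * n) else 0 := by
  have hQ0 : (0 : ℝ) < Q := by exact_mod_cast hQ
  have h1δ : 0 < 1 + δ := by linarith
  set a : ℕ := ⌈x / ((1 + δ) * Q)⌉₊ with ha
  set b : ℕ := ⌊x / Q⌋₊ with hb
  have ha1 : 1 ≤ a := by
    rw [ha, Nat.one_le_ceil_iff]
    positivity
  have hxa : x / ((1 + δ) * Q) ≤ a := Nat.le_ceil _
  have hxa' : (a : ℝ) < x / ((1 + δ) * Q) + 1 := Nat.ceil_lt_add_one (by positivity)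
  have hxb : (b : ℝ) ≤ x / Q := Nat.floor_le (by positivity)
  have hxb' : x / Q < b + 1 := Nat.lt_floor_add_one _
  have hsub : Finset.Icc a b ⊆ Finset.Icc 1 N := Finset.Icc_subset_Icc ha1 hxN
  have hterm : ∀ n ∈ Finset.Icc a b, 1 / x ≤
      (if ((Q : ℝ) * n ≤ x ∧ x ≤ (1 + δ) * ((Q : ℝ) * n)) then 1 / ((Q : ℝ) * n) else 0) := by
    intro n hn
    rw [Finset.mem_Icc] at hn
    have h1 : (a : ℝ) ≤ n := by exact_mod_cast hn.1
    have h2 : (n : ℝ) ≤ b := by exact_mod_cast hn.2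
    have h3 : (Q : ℝ) * n ≤ x := by
      have : (n : ℝ) ≤ x / Q := h2.trans hxb
      rw [le_div_iff₀ hQ0] at this
      linarith
    have h4 : x ≤ (1 + δ) * ((Q : ℝ) * n) := by
      have : x / ((1 + δ) * Q) ≤ n := hxa.trans h1
      rw [div_le_iff₀ (by positivity)] at this
      nlinarith
    have hn0 : (0 : ℝ) < n := by
      have : 1 ≤ n := ha1.trans hn.1
      exact_mod_cast this
    rw [if_pos ⟨h3, h4⟩]
    exact one_div_le_one_div_of_le (by positivity) h3
  have hnn : ∀ n ∈ Finset.Icc 1 N, n ∉ Finset.Icc a b → 0 ≤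
      (if ((Q : ℝ) * n ≤ x ∧ x ≤ (1 + δ) * ((Q : ℝ) * n)) then 1 / ((Q : ℝ) * n) else 0) := by
    intro n _ _
    split_ifs
    · positivity
    · exact le_rfl
  refine le_trans ?_ (Finset.sum_le_sum_of_subset_of_nonneg hsub hnn)
  refine le_trans ?_ (Finset.card_nsmul_le_sum _ _ _ hterm)
  rw [nsmul_eq_mul, Nat.card_Icc]
  have hcard : x / Q - x / ((1 + δ) * Q) - 1 ≤ ((b + 1 - a : ℕ) : ℝ) := by
    have h1 : ((b + 1 : ℕ) : ℝ) ≤ ((b + 1 - a : ℕ) : ℝ) + a := by
      exact_mod_cast (by omega : b + 1 ≤ b + 1 - a + a)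
    push_cast at h1
    linarith
  have hx' : 0 ≤ 1 / x := by positivity
  refine le_trans (le_of_eq ?_) (mul_le_mul_of_nonneg_right hcard hx')
  field_simp
  ring

open Classical in
/-- number of `n ∈ [1, N]` with `r Q n ∈ V` -/
noncomputable def cnt (V : Set ℝ) (Q N : ℕ) (r : ℝ) : ℕ :=
  ((Finset.Icc 1 N).filter (fun n : ℕ => (Q : ℝ) * n * r ∈ V)).card

theorem cnt_eq (V : Set ℝ) (Q N : ℕ) (r : ℝ) : (cnt V Q N r : ENNReal) =
    ∑ n ∈ Finset.Icc 1 N, ({r : ℝ | (Q : ℝ) * n * r ∈ V}).indicator (fun _ => (1 : ENNReal)) r := by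
  classical
  unfold cnt
  rw [Finset.card_filter, Nat.cast_sum]
  refine Finset.sum_congr rfl fun n _ => ?_
  by_cases h : (Q : ℝ) * n * r ∈ V
  · simp [h, indicator]
  · simp [h, indicator]

theorem cnt_measurable {V : Set ℝ} (hV : MeasurableSet V) (Q N : ℕ) :
    Measurable fun r => (cnt V Q N r : ENNReal) := by
  simp only [cnt_eq]
  refine Finset.measurable_sum _ fun n _ => ?_
  exact measurable_const.indicator (measurableSet_preimage (measurable_const_mul _) hV)

/-- the double counting -/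
theorem double_count {V : Set ℝ} (hV : MeasurableSet V) {Q : ℕ} (hQ : 1 ≤ Q) {δ X₀ y : ℝ}
    (hδ : 0 < δ) (hX : (1 + δ) * Q ≤ X₀) (hVy : V ⊆ Iic y) (N : ℕ) (hN : N = ⌊y / Q⌋₊) :
    ENNReal.ofReal (δ / ((1 + δ) * Q) - 1 / X₀) * volume (V ∩ Ioi X₀) ≤
      ∫⁻ r in Icc (1 : ℝ) (1 + δ), (cnt V Q N r : ENNReal) := by
  classical
  have hQ0 : (0 : ℝ) < Q := by exact_mod_cast hQ
  have h1δ : 0 < 1 + δ := by linarith
  have hX0 : 0 < X₀ := lt_of_lt_of_le (by positivity) hX
  set c₀ := δ / ((1 + δ) * Q) - 1 / X₀ with hc₀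
  -- first step
  have step1 : ENNReal.ofReal c₀ * volume (V ∩ Ioi X₀) ≤
      ∑ n ∈ Finset.Icc 1 N, ENNReal.ofReal (1 / ((Q : ℝ) * n)) *
        volume (V ∩ Icc ((Q : ℝ) * n) ((1 + δ) * ((Q : ℝ) * n))) := by
    rw [← lintegral_indicator_const (hV.inter measurableSet_Ioi)]
    have e : ∑ n ∈ Finset.Icc 1 N, ENNReal.ofReal (1 / ((Q : ℝ) * n)) *
        volume (V ∩ Icc ((Q : ℝ) * n) ((1 + δ) * ((Q : ℝ) * n))) =
        ∫⁻ t, ∑ n ∈ Finset.Icc 1 N, (V ∩ Icc ((Q : ℝ) * n) ((1 + δ) * ((Q : ℝ) * n))).indicator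
          (fun _ => ENNReal.ofReal (1 / ((Q : ℝ) * n))) t := by
      rw [lintegral_finsetSum]
      · refine Finset.sum_congr rfl fun n _ => ?_
        rw [lintegral_indicator_const (hV.inter measurableSet_Icc)]
      · intro n _
        exact measurable_const.indicator (hV.inter measurableSet_Icc)
    rw [e]
    refine lintegral_mono fun t => ?_
    by_cases ht : t ∈ V ∩ Ioi X₀
    · rw [indicator_of_mem ht]
      obtain ⟨htV, htX⟩ := ht
      have htX' : X₀ < t := htX
      have ht0 : 0 < t := hX0.trans htX'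
      have hty : t ≤ y := hVy htV
      have hw := weight_lower hQ hδ N ht0 (by
        rw [hN]
        exact Nat.floor_le_floor (div_le_div_of_nonneg_right hty hQ0.le))
      have h1 : c₀ ≤ δ / ((1 + δ) * Q) - 1 / t := by
        have := one_div_le_one_div_of_le hX0 htX'.le
        linarith
      refine (ENNReal.ofReal_le_ofReal (h1.trans hw)).trans ?_
      rw [ENNReal.ofReal_sum_of_nonneg]
      · refine Finset.sum_le_sum fun n _ => ?_
        split_ifs with h2
        · rw [indicator_of_mem (show t ∈ V ∩ Icc ((Q : ℝ) * n) ((1 + δ) * ((Q : ℝ) * n)) from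
            ⟨htV, h2.1, h2.2⟩)]
        · simp
      · intro n _
        split_ifs
        · positivity
        · exact le_rfl
    · rw [indicator_of_notMem ht]
      exact zero_le
  refine step1.trans ?_
  simp only [cnt_eq]
  rw [lintegral_finsetSum]
  · refine Finset.sum_le_sum fun n hn => ?_
    have hn1 : 1 ≤ n := (Finset.mem_Icc.1 hn).1
    have hn0 : (0 : ℝ) < n := by exact_mod_cast hn1
    have hQn : (0 : ℝ) < (Q : ℝ) * n := by positivity
    have hm : MeasurableSet {r : ℝ | (Q : ℝ) * n * r ∈ V} :=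
      measurableSet_preimage (measurable_const_mul _) hV
    rw [lintegral_indicator_const hm, one_mul, Measure.restrict_apply hm]
    have h2 := Real.volume_preimage_mul_left hQn.ne'
      (V ∩ Icc ((Q : ℝ) * n) ((1 + δ) * ((Q : ℝ) * n)))
    rw [abs_of_pos (inv_pos.2 hQn), ← one_div] at h2
    rw [← h2]
    refine measure_mono ?_
    rintro r ⟨h3, h4, h5⟩
    refine ⟨h3, ?_, ?_⟩
    · have : (Q : ℝ) * n * 1 ≤ (Q : ℝ) * n * r := by rw [mul_one]; exact h4
      exact le_of_mul_le_mul_left this hQn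
    · have : (Q : ℝ) * n * r ≤ (Q : ℝ) * n * (1 + δ) := by
        have := h5
        simp only at this
        linarith
      exact le_of_mul_le_mul_left this hQn
  · intro n _
    exact measurable_const.indicator (measurableSet_preimage (measurable_const_mul _) hV)

end Pool.Agent.R524.LP
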