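import Pool.Agent.R524.LP.Dil

/-!
# Dilates of the integers inside sets of reals which are dense in long windows, II
-/

set_option autoImplicit false

namespace Pool.Agent.R524.LP

open MeasureTheory Set Filter

/-- the number of multiples in a window -/
theorem cnt_le {V : Set ℝ} {Q : ℕ} (hQ : 1 ≤ Q) {x H r : ℝ} (hx : 0 ≤ x) (hH : 0 ≤ H) (hr : 1 ≤ r)
    (hV : V ⊆ Ioc x (x + H)) (N : ℕ) : (cnt V Q N r : ℝ) ≤ H / Q + 1 := by
  classical
  have hQ0 : (0 : ℝ) < Q := by exact_mod_cast hQ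
  have hr0 : 0 < r := by linarith
  have hsub : ((Finset.Icc 1 N).filter (fun n : ℕ => (Q : ℝ) * n * r ∈ V)) ⊆
      Finset.Icc (⌊x / (Q * r)⌋₊ + 1) (⌊(x + H) / (Q * r)⌋₊) := by
    intro n hn
    rw [Finset.mem_filter] at hn
    obtain ⟨h1, h2⟩ := hV hn.2
    rw [Finset.mem_Icc]
    constructor
    · have h3 : x / (Q * r) < n := by
        rw [div_lt_iff₀ (by positivity)]
        linarith
      have h4 := (Nat.floor_lt (by positivity)).2 h3
      omega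
    · apply Nat.le_floor
      rw [le_div_iff₀ (by positivity)]
      linarith
  have h1 := Finset.card_le_card hsub
  rw [Nat.card_Icc] at h1
  unfold cnt
  have h2 : ((⌊(x + H) / (Q * r)⌋₊ : ℕ) : ℝ) ≤ (x + H) / (Q * r) := Nat.floor_le (by positivity)
  have h3 : x / (Q * r) < (⌊x / (Q * r)⌋₊ : ℝ) + 1 := Nat.lt_floor_add_one _
  have h4 : (x + H) / (Q * r) = x / (Q * r) + H / (Q * r) := add_div _ _ _
  have h5 : H / (Q * r) ≤ H / Q := by
    apply div_le_div_of_nonneg_left hH hQ0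
    nlinarith
  have h6 : ((⌊(x + H) / (Q * r)⌋₊ + 1 - (⌊x / (Q * r)⌋₊ + 1) : ℕ) : ℝ) ≤ H / Q + 1 := by
    rcases Nat.le_total (⌊(x + H) / (Q * r)⌋₊ + 1) (⌊x / (Q * r)⌋₊ + 1) with h | h
    · rw [Nat.sub_eq_zero_of_le h]
      have : 0 ≤ H / Q := by positivity
      push_cast
      linarith
    · rw [Nat.cast_sub h]
      push_cast
      linarith
  refine le_trans ?_ h6
  exact_mod_cast h1

/-- measure of the good dilates -/
theorem good_measure {V : Set ℝ} (hV : MeasurableSet V) {Q : ℕ} (hQ : 1 ≤ Q) {ρ ε δ A x H : ℝ}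
    (hρ : 0 < ρ) (hε : 0 < ε) (hδ : 0 < δ) (hδ1 : δ ≤ 1) (hδε : 4 * (δ * (ρ + ε)) ≤ ε)
    (hA : 16 * (ρ + ε) = A * (δ * ε)) (hA2 : 2 ≤ A)
    (hx : 0 ≤ x) (hH : 16 * (A * Q) ≤ H * ε) (hHQ : (Q : ℝ) ≤ H)
    (hVsub : V ⊆ Ioc x (x + H)) (hvol : ENNReal.ofReal ((ρ + ε) * H) ≤ volume V)
    (N : ℕ) (hN : N = ⌊(x + H) / Q⌋₊) :
    ENNReal.ofReal (δ * ε / 16) ≤
      volume {r : ℝ | r ∈ Icc 1 (1 + δ) ∧ (ρ + ε / 2) * (H / Q) ≤ (cnt V Q N r : ℝ)} := by
  classical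
  have hQ0 : (0 : ℝ) < Q := by exact_mod_cast hQ
  have hA0 : 0 < A := by linarith
  have hH0 : 0 < H := lt_of_lt_of_le hQ0 hHQ
  have h1δ : 0 < 1 + δ := by linarith
  have hX : (1 + δ) * (Q : ℝ) ≤ Q * A := by nlinarith
  set E : Set ℝ := {r : ℝ | r ∈ Icc 1 (1 + δ) ∧ (ρ + ε / 2) * (H / Q) ≤ (cnt V Q N r : ℝ)} with hE
  have hcm : Measurable fun r => (cnt V Q N r : ℝ) := by
    have h1 := (cnt_measurable hV Q N).ennreal_toReal
    simpa using h1
  have hEm : MeasurableSet E := measurableSet_Icc.inter (measurableSet_le measurable_const hcm)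
  have key := double_count hV hQ hδ hX (fun t ht => (hVsub ht).2) N hN
  -- upper bound of the integral
  have hup : ∫⁻ r in Icc (1 : ℝ) (1 + δ), (cnt V Q N r : ENNReal) ≤
      ENNReal.ofReal (H / Q + 1) * volume E + ENNReal.ofReal ((ρ + ε / 2) * (H / Q) * δ) := by
    have h1 : ∀ r ∈ Icc (1 : ℝ) (1 + δ), (cnt V Q N r : ENNReal) ≤
        E.indicator (fun _ => ENNReal.ofReal (H / Q + 1)) r + ENNReal.ofReal ((ρ + ε / 2) * (H / Q)) := by
      intro r hr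
      by_cases hrE : r ∈ E
      · rw [indicator_of_mem hrE]
        have h2 := cnt_le hQ hx hH0.le hr.1 hVsub N (V := V)
        have h3 : (cnt V Q N r : ENNReal) = ENNReal.ofReal (cnt V Q N r : ℝ) := by simp
        rw [h3]
        exact (ENNReal.ofReal_le_ofReal h2).trans le_self_add
      · rw [indicator_of_notMem hrE, zero_add]
        have h2 : (cnt V Q N r : ℝ) ≤ (ρ + ε / 2) * (H / Q) := by
          by_contra hcon
          push Not at hcon
          exact hrE ⟨hr, hcon.le⟩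
        have h3 : (cnt V Q N r : ENNReal) = ENNReal.ofReal (cnt V Q N r : ℝ) := by simp
        rw [h3]
        exact ENNReal.ofReal_le_ofReal h2
    calc ∫⁻ r in Icc (1 : ℝ) (1 + δ), (cnt V Q N r : ENNReal)
        ≤ ∫⁻ r in Icc (1 : ℝ) (1 + δ), (E.indicator (fun _ => ENNReal.ofReal (H / Q + 1)) r +
            ENNReal.ofReal ((ρ + ε / 2) * (H / Q))) := setLIntegral_mono' measurableSet_Icc h1
      _ = (∫⁻ r in Icc (1 : ℝ) (1 + δ), E.indicator (fun _ => ENNReal.ofReal (H / Q + 1)) r) +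
            ∫⁻ _ in Icc (1 : ℝ) (1 + δ), ENNReal.ofReal ((ρ + ε / 2) * (H / Q)) :=
          lintegral_add_right _ measurable_const
      _ ≤ _ := by
          refine add_le_add ?_ ?_
          · rw [lintegral_indicator_const hEm]
            exact mul_le_mul_right (Measure.restrict_apply_le _ _) _
          · rw [setLIntegral_const, Real.volume_Icc, ← ENNReal.ofReal_mul (by positivity)]
            apply ENNReal.ofReal_le_ofReal
            have : 1 + δ - 1 = δ := by ring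
            rw [this]
  -- lower bound of the volume
  have hlow : ENNReal.ofReal ((ρ + ε) * H - Q * A) ≤ volume (V ∩ Ioi (Q * A)) := by
    have h1 : V ⊆ (V ∩ Ioi ((Q : ℝ) * A)) ∪ Ioc 0 (Q * A) := by
      intro t ht
      by_cases h2 : (Q : ℝ) * A < t
      · exact Or.inl ⟨ht, h2⟩
      · right
        exact ⟨lt_of_le_of_lt hx (hVsub ht).1, not_lt.1 h2⟩
    have h2 := (hvol.trans (measure_mono h1)).trans (measure_union_le _ _)
    rw [Real.volume_Ioc, sub_zero] at h2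
    rw [ENNReal.ofReal_sub _ (by positivity)]
    exact tsub_le_iff_right.2 h2
  by_contra hcon
  push Not at hcon
  have h3 : ENNReal.ofReal ((δ / ((1 + δ) * Q) - 1 / (Q * A)) * ((ρ + ε) * H - Q * A)) ≤
      ENNReal.ofReal (H / Q + 1) * volume E + ENNReal.ofReal ((ρ + ε / 2) * (H / Q) * δ) := by
    have hc0 : 0 ≤ δ / ((1 + δ) * Q) - 1 / ((Q : ℝ) * A) := by
      rw [sub_nonneg, div_le_div_iff₀ (by positivity) (by positivity)]
      have : (1 + δ) ≤ δ * A := by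
        have h4 : 16 * (ρ + ε) = (A * δ) * ε := by rw [hA]; ring
        have h5 : 16 * ε ≤ (A * δ) * ε := by rw [← h4]; linarith
        have h6 : 16 ≤ A * δ := le_of_mul_le_mul_right h5 hε
        linarith
      nlinarith
    rw [ENNReal.ofReal_mul hc0]
    exact (mul_le_mul_right hlow _).trans (key.trans hup)
  have h4 : ENNReal.ofReal (H / Q + 1) * volume E + ENNReal.ofReal ((ρ + ε / 2) * (H / Q) * δ) <
      ENNReal.ofReal ((H / Q + 1) * (δ * ε / 16) + (ρ + ε / 2) * (H / Q) * δ) := by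
    rw [ENNReal.ofReal_add (p := (H / Q + 1) * (δ * ε / 16)) (by positivity) (by positivity),
      ENNReal.ofReal_mul (p := H / Q + 1) (by positivity)]
    refine ENNReal.add_lt_add_right ENNReal.ofReal_ne_top ?_
    exact (ENNReal.mul_lt_mul_iff_right (by
      rw [Ne, ENNReal.ofReal_eq_zero, not_le]; positivity) ENNReal.ofReal_ne_top).2 hcon
  have h5 := lt_of_le_of_lt h3 h4
  have h6 : (δ / ((1 + δ) * Q) - 1 / (Q * A)) * ((ρ + ε) * H - Q * A) <
      (H / Q + 1) * (δ * ε / 16) + (ρ + ε / 2) * (H / Q) * δ := by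
    exact (ENNReal.ofReal_lt_ofReal_iff (by positivity)).1 h5
  -- contradiction
  have e1 : (δ / ((1 + δ) * Q) - 1 / (Q * A)) * ((ρ + ε) * H - Q * A) =
      (H / Q) * ((ρ + ε) * (δ / (1 + δ)) - (ρ + ε) / A) - A * (δ / (1 + δ)) + 1 := by
    field_simp
    ring
  rw [e1] at h6
  have g1 : δ * (ρ + 3 * ε / 4) ≤ (ρ + ε) * (δ / (1 + δ)) := by
    rw [mul_div_assoc', le_div_iff₀ h1δ]
    nlinarith [mul_pos hδ hδ, mul_pos hδ hε, mul_pos hδ hρ]
  have g2 : (ρ + ε) / A = δ * ε / 16 := by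
    rw [div_eq_div_iff hA0.ne' (by norm_num)]
    linarith
  have g3 : δ / (1 + δ) ≤ δ := div_le_self hδ.le (by linarith)
  have g4 : A * (δ / (1 + δ)) ≤ (H / Q) * (δ * ε / 16) := by
    have h7 : A * (δ / (1 + δ)) ≤ A * δ := mul_le_mul_of_nonneg_left g3 hA0.le
    have h8 : 16 * A ≤ (H / Q) * ε := by
      rw [div_mul_eq_mul_div, le_div_iff₀ hQ0]
      linarith
    nlinarith
  have g5 : 1 ≤ H / Q := by rw [le_div_iff₀ hQ0]; linarith
  rw [g2] at h6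
  obtain ⟨Y, hY⟩ : ∃ Y, Y = H / Q := ⟨_, rfl⟩
  rw [← hY] at h6 g4 g5
  have g6 : Y * (δ * (ρ + 3 * ε / 4)) ≤ Y * ((ρ + ε) * (δ / (1 + δ))) :=
    mul_le_mul_of_nonneg_left g1 (by linarith)
  have hδε0 : 0 < δ * ε := by positivity
  nlinarith

/-- **Dilates of the integers in sets of reals that are dense in long windows.** -/
theorem dil {ρ ε : ℝ} (hρ : 0 < ρ) (hε : 0 < ε) {U : Set ℝ} (hU : MeasurableSet U)
    (hbig : ∀ H₀ : ℝ, ∃ x H : ℝ, 0 ≤ x ∧ H₀ ≤ H ∧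
      ENNReal.ofReal ((ρ + ε) * H) ≤ volume (U ∩ Ioc x (x + H))) :
    ∃ r : ℝ, 1 ≤ r ∧ ∀ M : ℕ, 1 ≤ M → ∃ Q : ℕ, 1 ≤ Q ∧ M ∣ Q ∧ ∀ L₀ : ℕ, ∃ L : ℕ, L₀ ≤ L ∧
      ∃ u : ℤ, (ρ + ε / 4) * L ≤
        ({n : ℕ | n < L ∧ r * (((Q : ℤ) * (u + (n : ℤ)) : ℤ) : ℝ) ∈ U}.ncard : ℝ) := by
  classical
  -- parameters
  obtain ⟨δ, hδ, hδ1, hδε⟩ : ∃ δ : ℝ, 0 < δ ∧ δ ≤ 1 ∧ 4 * (δ * (ρ + ε)) ≤ ε := by
    refine ⟨min 1 (ε / (4 * (ρ + ε))), by positivity, min_le_left _ _, ?_⟩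
    have h1 : min 1 (ε / (4 * (ρ + ε))) ≤ ε / (4 * (ρ + ε)) := min_le_right _ _
    rw [le_div_iff₀ (by positivity)] at h1
    linarith
  obtain ⟨A, hA⟩ : ∃ A : ℝ, 16 * (ρ + ε) = A * (δ * ε) :=
    ⟨16 * (ρ + ε) / (δ * ε), by field_simp⟩
  have hA2 : 2 ≤ A := by
    by_contra hcon
    push Not at hcon
    have h1 : 16 * ε ≤ 16 * (ρ + ε) := by linarith
    have h2 : A * (δ * ε) ≤ 2 * (1 * ε) := by
      rcases le_or_gt A 0 with h | h
      · have : A * (δ * ε) ≤ 0 := mul_nonpos_of_nonpos_of_nonneg h (by positivity)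
        linarith
      · have h3 : δ * ε ≤ 1 * ε := mul_le_mul_of_nonneg_right hδ1 hε.le
        have h4 : 0 ≤ δ * ε := by positivity
        nlinarith
    linarith
  choose X H hX0 hH hvol using fun k : ℕ => hbig ((k : ℝ) + 1)
  -- the sets
  set N : ℕ → ℕ → ℕ := fun Q k => ⌊(X k + H k) / (Q : ℝ)⌋₊ with hN
  set V : ℕ → Set ℝ := fun k => U ∩ Ioc (X k) (X k + H k) with hVdef
  have hVm : ∀ k, MeasurableSet (V k) := fun k => hU.inter measurableSet_Ioc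
  set F : ℕ → ℕ → Set ℝ := fun Q k =>
    {r : ℝ | r ∈ Icc 1 (1 + δ) ∧ (ρ + ε / 2) * (H k / Q) ≤ (cnt (V k) Q (N Q k) r : ℝ)} with hF
  have hFm : ∀ Q k, MeasurableSet (F Q k) := by
    intro Q k
    have hcm : Measurable fun r => (cnt (V k) Q (N Q k) r : ℝ) := by
      have h1 := (cnt_measurable (hVm k) Q (N Q k)).ennreal_toReal
      simpa using h1
    exact measurableSet_Icc.inter (measurableSet_le measurable_const hcm)
  have hlarge : ∀ Q : ℕ, 1 ≤ Q → ∃ k₀ : ℕ, ∀ k, k₀ ≤ k → ENNReal.ofReal (δ * ε / 16) ≤ volume (F Q k) := by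
    intro Q hQ
    obtain ⟨k₀, hk₀⟩ := exists_nat_ge (16 * (A * Q) / ε + Q)
    refine ⟨k₀, fun k hk => ?_⟩
    have h1 : (k₀ : ℝ) ≤ k := by exact_mod_cast hk
    have h2 := hH k
    have hQ0 : (0 : ℝ) < Q := by exact_mod_cast hQ
    have h3 : 0 ≤ 16 * (A * Q) / ε := by positivity
    have h4 : 16 * (A * Q) / ε ≤ H k := by linarith
    rw [div_le_iff₀ hε] at h4
    exact good_measure (hVm k) hQ hρ hε hδ hδ1 hδε hA hA2 (hX0 k) h4 (by linarith)
      inter_subset_right (hvol k) (N Q k) rfl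
  have hG : ∀ Q : ℕ, 1 ≤ Q → ∃ G : Set ℝ, MeasurableSet G ∧ G ⊆ Icc 1 (1 + δ) ∧
      ENNReal.ofReal (δ * ε / 16) ≤ volume G ∧ ∀ r ∈ G, ∀ n : ℕ, ∃ k, n ≤ k ∧ r ∈ F Q k := by
    intro Q hQ
    obtain ⟨k₀, hk₀⟩ := hlarge Q hQ
    exact limsup_ge (hFm Q) (fun k r hr => hr.1) k₀ hk₀
  choose! G hGm hGsub hGvol hGr using hG
  have hfac : ∀ j : ℕ, 1 ≤ j.factorial := fun j => Nat.factorial_pos j
  obtain ⟨G', -, hG'sub, hG'vol, hG'r⟩ := limsup_ge (F := fun j => G j.factorial)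
    (fun j => hGm _ (hfac j)) (fun j => hGsub _ (hfac j)) 0 (fun j _ => hGvol _ (hfac j))
  have hpos : 0 < volume G' := lt_of_lt_of_le (ENNReal.ofReal_pos.2 (by positivity)) hG'vol
  obtain ⟨r, hr⟩ : G'.Nonempty := nonempty_of_measure_ne_zero hpos.ne'
  have hr1 : 1 ≤ r := (hG'sub hr).1
  refine ⟨r, hr1, fun M hM => ?_⟩
  obtain ⟨j, hj, hrj⟩ := hG'r r hr M
  refine ⟨j.factorial, hfac j, Nat.dvd_factorial hM hj, fun L₀ => ?_⟩
  set Q := j.factorial with hQ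
  have hQ1 : 1 ≤ Q := hfac j
  have hQ0 : (0 : ℝ) < Q := by exact_mod_cast hQ1
  -- a long window
  obtain ⟨n₀, hn₀⟩ := exists_nat_ge ((Q : ℝ) * (L₀ + 4 * (ρ + ε) / ε))
  obtain ⟨k, hk, hrk⟩ := hGr Q hQ1 r hrj n₀
  obtain ⟨-, hcount⟩ := hrk
  have hHk : (Q : ℝ) * (L₀ + 4 * (ρ + ε) / ε) ≤ H k := by
    have h1 : (n₀ : ℝ) ≤ k := by exact_mod_cast hk
    have h2 := hH k
    linarith
  have hHQ : (L₀ : ℝ) + 4 * (ρ + ε) / ε ≤ H k / Q := by
    rw [le_div_iff₀ hQ0]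
    linarith
  have hH0 : 0 ≤ H k / Q := by
    have : 0 ≤ (L₀ : ℝ) + 4 * (ρ + ε) / ε := by positivity
    linarith
  refine ⟨⌊H k / Q⌋₊ + 1, ?_, (⌊X k / (Q * r)⌋₊ : ℤ) + 1, ?_⟩
  · have h1 : L₀ ≤ ⌊H k / Q⌋₊ := by
      apply Nat.le_floor
      have : 0 ≤ 4 * (ρ + ε) / ε := by positivity
      linarith
    omega
  · have hL : (((⌊H k / Q⌋₊ + 1 : ℕ)) : ℝ) ≤ H k / Q + 1 := by
      push_cast
      have := Nat.floor_le hH0
      linarith
    have h1 : (ρ + ε / 4) * (((⌊H k / Q⌋₊ + 1 : ℕ)) : ℝ) ≤ (ρ + ε / 2) * (H k / Q) := by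
      have h2 : (ρ + ε / 4) * (((⌊H k / Q⌋₊ + 1 : ℕ)) : ℝ) ≤ (ρ + ε / 4) * (H k / Q + 1) :=
        mul_le_mul_of_nonneg_left hL (by positivity)
      have h3 : 4 * (ρ + ε) / ε ≤ H k / Q := by
        have : (0 : ℝ) ≤ L₀ := Nat.cast_nonneg _
        linarith
      rw [div_le_iff₀ hε] at h3
      nlinarith
    refine h1.trans (hcount.trans ?_)
    rw [Nat.cast_le]
    unfold cnt
    rw [← Set.ncard_coe_finset]
    have hr0 : 0 < r := by linarith
    have hinj : Set.InjOn (fun n : ℕ => n - (⌊X k / (Q * r)⌋₊ + 1))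
        (((Finset.Icc 1 (N Q k)).filter (fun n : ℕ => (Q : ℝ) * n * r ∈ V k) : Finset ℕ) : Set ℕ) := by
      intro n hn n' hn' hnn
      have key : ∀ m ∈ (((Finset.Icc 1 (N Q k)).filter (fun n : ℕ => (Q : ℝ) * n * r ∈ V k) :
          Finset ℕ) : Set ℕ), ⌊X k / (Q * r)⌋₊ + 1 ≤ m := by
        intro m hm
        rw [Finset.mem_coe, Finset.mem_filter] at hm
        have h2 := hm.2.2.1
        have h3 : X k / (Q * r) < m := by
          rw [div_lt_iff₀ (by positivity)]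
          linarith
        have h4 := (Nat.floor_lt (div_nonneg (hX0 k) (by positivity))).2 h3
        omega
      have h1 := key n hn
      have h2 := key n' hn'
      simp only at hnn
      omega
    refine (le_of_eq ?_).trans ((le_of_eq (hinj.ncard_image).symm).trans ?_)
    · congr!
    refine Set.ncard_le_ncard ?_ ((Set.finite_lt_nat _).subset fun n hn => hn.1)
    rintro _ ⟨n, hn, rfl⟩
    rw [Finset.mem_coe, Finset.mem_filter] at hn
    obtain ⟨-, hnU, hn1, hn2⟩ := hn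
    have h3 : X k / (Q * r) < n := by
      rw [div_lt_iff₀ (by positivity)]
      linarith
    have h4 := (Nat.floor_lt (div_nonneg (hX0 k) (by positivity))).2 h3
    have h5 : (n : ℝ) ≤ X k / (Q * r) + H k / Q := by
      have h6 : (n : ℝ) ≤ (X k + H k) / (Q * r) := by
        rw [le_div_iff₀ (by positivity)]
        linarith
      have h7 : H k / (Q * r) ≤ H k / Q := by
        apply div_le_div_of_nonneg_left _ hQ0 (by nlinarith)
        have : 0 ≤ H k / Q * Q := mul_nonneg hH0 hQ0.le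
        rwa [div_mul_cancel₀ _ hQ0.ne'] at this
      rw [add_div] at h6
      linarith
    refine ⟨?_, ?_⟩
    · simp only
      have h6 : X k / (Q * r) < (⌊X k / (Q * r)⌋₊ : ℝ) + 1 := Nat.lt_floor_add_one _
      have h7 : H k / Q < (⌊H k / Q⌋₊ : ℝ) + 1 := Nat.lt_floor_add_one _
      have h8 : (n : ℝ) < ((⌊X k / (Q * r)⌋₊ + 1 + (⌊H k / Q⌋₊ + 1) : ℕ) : ℝ) := by
        push_cast
        linarith
      have h9 : n < ⌊X k / (Q * r)⌋₊ + 1 + (⌊H k / Q⌋₊ + 1) := by exact_mod_cast h8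
      omega
    · have e1 : (((Q : ℤ) * ((⌊X k / (Q * r)⌋₊ : ℤ) + 1 + ((n - (⌊X k / (Q * r)⌋₊ + 1) : ℕ) : ℤ)) : ℤ) : ℝ)
          = (Q : ℝ) * n := by
        have e2 : (⌊X k / (Q * r)⌋₊ : ℤ) + 1 + ((n - (⌊X k / (Q * r)⌋₊ + 1) : ℕ) : ℤ) = n := by
          omega
        rw [e2]
        push_cast
        ring
      show r * (((Q : ℤ) * ((⌊X k / (Q * r)⌋₊ : ℤ) + 1 +
        ((n - (⌊X k / (Q * r)⌋₊ + 1) : ℕ) : ℤ)) : ℤ) : ℝ) ∈ U
      rw [e1, mul_comm]
      exact hnU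

end Pool.Agent.R524.LP
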