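import Mathlib

/-!
# Regularisation of a closed set with the five point property
-/

set_option autoImplicit false

namespace Pool.Agent.R524.LP

open MeasureTheory Set Filter Topology

/-- the map `γ ↦ γ j - γ i` is open -/
theorem isOpenMap_sub {i j : Fin 5} (hij : i < j) : IsOpenMap fun γ : Fin 5 → ℝ => γ j - γ i := by
  let f : (Fin 5 → ℝ) →ₗ[ℝ] ℝ := (LinearMap.proj (R := ℝ) (φ := fun _ : Fin 5 => ℝ) j) -
    (LinearMap.proj (R := ℝ) (φ := fun _ : Fin 5 => ℝ) i)
  have hf : Function.Surjective f := by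
    intro t
    refine ⟨fun k => if k = j then t else 0, ?_⟩
    simp [f, hij.ne]
  have h := LinearMap.isOpenMap_of_finiteDimensional f hf
  exact h

/-- If among the differences of any five points there is one in the closed set `T`, then among the
differences of any five points there is one in the closure of the interior of `T`. -/
theorem five_reg {T : Set ℝ} (hT : IsClosed T)
    (h5 : ∀ β : Fin 5 → ℝ, StrictMono β → ∃ i j : Fin 5, i < j ∧ β j - β i ∈ T)
    (β : Fin 5 → ℝ) (hβ : StrictMono β) :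
    ∃ i j : Fin 5, i < j ∧ β j - β i ∈ closure (interior T) := by
  by_contra hcon
  push Not at hcon
  -- the open condition
  have hopen : IsOpen (⋂ p : {p : Fin 5 × Fin 5 // p.1 < p.2},
      {γ : Fin 5 → ℝ | γ p.1.2 - γ p.1.1 ∈ (closure (interior T))ᶜ ∩ Ioi 0}) := by
    refine isOpen_iInter_of_finite fun p => ?_
    have hc : Continuous fun γ : Fin 5 → ℝ => γ p.1.2 - γ p.1.1 :=
      (continuous_apply _).sub (continuous_apply _)
    exact (isClosed_closure.isOpen_compl.inter isOpen_Ioi).preimage hc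
  have hdense : Dense (⋂ p : {p : Fin 5 × Fin 5 // p.1 < p.2},
      {γ : Fin 5 → ℝ | γ p.1.2 - γ p.1.1 ∈ (frontier T)ᶜ}) := by
    refine dense_iInter_of_isOpen (fun p => ?_) (fun p => ?_)
    · have hc : Continuous fun γ : Fin 5 → ℝ => γ p.1.2 - γ p.1.1 :=
        (continuous_apply _).sub (continuous_apply _)
      exact isClosed_frontier.isOpen_compl.preimage hc
    · have h1 : Dense (frontier T)ᶜ := by
        rw [← interior_eq_empty_iff_dense_compl]
        exact interior_frontier hT
      exact h1.preimage (isOpenMap_sub p.2)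
  obtain ⟨γ, hγ1, hγ2⟩ := hdense.inter_open_nonempty _ hopen ⟨β, by
    rw [mem_iInter]
    rintro ⟨⟨i, j⟩, hij⟩
    exact ⟨hcon i j hij, sub_pos.2 (hβ hij)⟩⟩
  rw [mem_iInter] at hγ1 hγ2
  have hmono : StrictMono γ := fun i j hij => sub_pos.1 (hγ1 ⟨(i, j), hij⟩).2
  obtain ⟨i, j, hij, hmem⟩ := h5 γ hmono
  have h1 : γ j - γ i ∉ frontier T := hγ2 ⟨(i, j), hij⟩
  have h2 : γ j - γ i ∉ closure (interior T) := (hγ1 ⟨(i, j), hij⟩).1
  rw [hT.frontier_eq] at h1
  have h3 : γ j - γ i ∈ interior T := by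
    by_contra h4
    exact h1 ⟨hmem, h4⟩
  exact h2 (subset_closure h3)

end Pool.Agent.R524.LP
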