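import Pool.Agent.R524.LP.Dil2
import Pool.Agent.R524.LP.Reg
import Pool.Agent.W142.TF.All
import Pool.Agent.H361R2.PP.Cor7

/-!
# The limit points of normalised prime gaps have measure at least two fifths of every long window
-/

set_option autoImplicit false

namespace Pool.Agent.R524.LP

open MeasureTheory Set Filter Topology

/-- A closed set which meets the differences of any five points has measure at least `(2/5 - ε) H`
in every window `[x, x + H]`, `x ≥ 0`, `H` large. -/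
theorem window {T : Set ℝ} (hT : IsClosed T)
    (h5 : ∀ β : Fin 5 → ℝ, StrictMono β → ∃ i j : Fin 5, i < j ∧ β j - β i ∈ T)
    (ε : ℝ) (hε : 0 < ε) :
    ∃ H₀ : ℝ, ∀ x H : ℝ, 0 ≤ x → H₀ ≤ H →
      ENNReal.ofReal ((2 / 5 - ε) * H) ≤ volume (closure (interior T) ∩ Set.Icc x (x + H)) := by
  by_contra hcon
  push Not at hcon
  set W : Set ℝ := closure (interior T) with hW
  have hWm : MeasurableSet W := isClosed_closure.measurableSet
  have hbig : ∀ H₀ : ℝ, ∃ x H : ℝ, 0 ≤ x ∧ H₀ ≤ H ∧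
      ENNReal.ofReal ((3 / 5 + ε) * H) ≤ volume ((Ioi 0 ∩ Wᶜ) ∩ Ioc x (x + H)) := by
    intro H₀
    obtain ⟨x, H, hx, hH, hv⟩ := hcon (max H₀ 0)
    refine ⟨x, H, hx, (le_max_left _ _).trans hH, ?_⟩
    have hH0 : 0 ≤ H := (le_max_right _ _).trans hH
    have h1 : volume (Ioc x (x + H)) ≤ volume ((Ioi 0 ∩ Wᶜ) ∩ Ioc x (x + H)) +
        volume (W ∩ Set.Icc x (x + H)) := by
      refine (measure_mono ?_).trans (measure_union_le _ _)
      intro t ht
      by_cases htW : t ∈ W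
      · exact Or.inr ⟨htW, ht.1.le, ht.2⟩
      · exact Or.inl ⟨⟨lt_of_le_of_lt hx ht.1, htW⟩, ht⟩
    rw [Real.volume_Ioc, add_sub_cancel_left] at h1
    have h2 : ENNReal.ofReal H = ENNReal.ofReal ((3 / 5 + ε) * H) + ENNReal.ofReal ((2 / 5 - ε) * H) := by
      rcases le_or_gt 0 (2 / 5 - ε) with h | h
      · rw [← ENNReal.ofReal_add (by positivity) (mul_nonneg h hH0)]
        congr 1
        ring
      · exfalso
        rw [ENNReal.ofReal_of_nonpos (by nlinarith)] at hv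
        exact absurd hv not_lt_zero
    rw [h2] at h1
    have h3 : ENNReal.ofReal ((3 / 5 + ε) * H) + ENNReal.ofReal ((2 / 5 - ε) * H) ≤
        volume ((Ioi 0 ∩ Wᶜ) ∩ Ioc x (x + H)) + ENNReal.ofReal ((2 / 5 - ε) * H) :=
      h1.trans (add_le_add_right hv.le _)
    exact (ENNReal.add_le_add_iff_right ENNReal.ofReal_ne_top).1 h3
  obtain ⟨r, hr1, hr⟩ := dil (ρ := 3 / 5) (by norm_num) hε
    (measurableSet_Ioi.inter hWm.compl) hbig
  obtain ⟨Q, A, -, -, hQA⟩ := Pool.Agent.W142.TF.s_maiF {z : ℤ | r * (z : ℝ) ∈ Ioi 0 ∩ Wᶜ} (ε / 4)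
    (by linarith) hr 1
  have hkey : ∀ i j : Fin 5, i < j → r * (((Q j : ℤ) * A j 0 - (Q i : ℤ) * A i 0 : ℤ) : ℝ) ∈ Ioi 0 ∩ Wᶜ :=
    fun i j hij => hQA i j hij j.2 0 0 one_pos one_pos
  set β : Fin 5 → ℝ := fun j => r * (((Q j : ℤ) * A j 0 : ℤ) : ℝ) with hβ
  have hdiff : ∀ i j : Fin 5, i < j → β j - β i ∈ Ioi 0 ∩ Wᶜ := by
    intro i j hij
    have h1 := hkey i j hij
    have e : β j - β i = r * (((Q j : ℤ) * A j 0 - (Q i : ℤ) * A i 0 : ℤ) : ℝ) := by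
      rw [hβ]
      push_cast
      ring
    rw [e]
    exact h1
  have hmono : StrictMono β := fun i j hij => sub_pos.1 (hdiff i j hij).1
  obtain ⟨i, j, hij, hmem⟩ := five_reg hT h5 β hmono
  exact (hdiff i j hij).2 hmem

open Pool.Agent.H361R2.PP in
theorem closed_LP' : IsClosed LP' := by
  rw [← isSeqClosed_iff_isClosed]
  intro u x hu hx
  refine ⟨ge_of_tendsto' hx fun k => (hu k).1, fun ε hε => ?_⟩
  have h1 : ∀ᶠ k in atTop, |u k - x| < ε / 2 := by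
    have := (Metric.tendsto_nhds.1 hx) (ε / 2) (by linarith)
    simpa [Real.dist_eq] using this
  obtain ⟨k, hk⟩ := h1.exists
  obtain ⟨c, hc, h⟩ := (hu k).2 (ε / 2) (by linarith)
  refine ⟨c, hc, fun N₀ => ?_⟩
  obtain ⟨N, hN, h2⟩ := h N₀
  refine ⟨N, hN, h2.trans ?_⟩
  rw [Nat.cast_le]
  refine Set.ncard_le_ncard ?_ ((Finset.finite_toSet (Finset.Icc 2 N)).subset fun n hn => hn.1)
  rintro n ⟨hn1, hn2⟩
  refine ⟨hn1, ?_⟩
  calc |gp n - x| = |(gp n - u k) + (u k - x)| := by ring_nf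
    _ ≤ |gp n - u k| + |u k - x| := abs_add_le _ _
    _ < ε := by linarith

open Pool.Agent.H361R2.PP in
theorem five_LP' (β : Fin 5 → ℝ) (hβ : StrictMono β) : ∃ i j : Fin 5, i < j ∧ β j - β i ∈ LP' := by
  obtain ⟨i, j, hij, h⟩ := Pool.Agent.H380R2.PPLeb.five fiv β hβ
  exact ⟨i, j, hij, LP_sub h⟩

open Pool.Agent.H361R2.PP in
theorem LP'_limit {x : ℝ} (hx : x ∈ LP') : ∃ φ : ℕ → ℕ, StrictMono φ ∧ (∀ i, 2 ≤ φ i) ∧
    Tendsto (fun i => gp (φ i)) atTop (𝓝 x) := by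
  have h1 : ∀ k : ℕ, ∀ M : ℕ, ∃ n, M < n ∧ 2 ≤ n ∧ |gp n - x| < 1 / ((k : ℝ) + 1) := by
    intro k M
    obtain ⟨c, hc, h⟩ := hx.2 (1 / ((k : ℝ) + 1)) (by positivity)
    obtain ⟨N₀, hN₀⟩ := exists_nat_gt ((M : ℝ) / c)
    obtain ⟨N, hN, h2⟩ := h N₀
    by_contra hcon
    push Not at hcon
    have h3 : ({n : ℕ | n ∈ Finset.Icc 2 N ∧ |gp n - x| < 1 / ((k : ℝ) + 1)}.ncard) ≤ M := by
      have h4 : {n : ℕ | n ∈ Finset.Icc 2 N ∧ |gp n - x| < 1 / ((k : ℝ) + 1)} ⊆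
          ((Finset.Icc 1 M : Finset ℕ) : Set ℕ) := by
        rintro n ⟨hn1, hn2⟩
        rw [Finset.mem_Icc] at hn1
        rw [Finset.mem_coe, Finset.mem_Icc]
        refine ⟨by omega, ?_⟩
        by_contra hMn
        exact absurd hn2 (not_lt.2 (hcon n (by omega) hn1.1))
      have h5 := Set.ncard_le_ncard h4 (Finset.finite_toSet _)
      rw [Set.ncard_coe_finset, Nat.card_Icc] at h5
      omega
    have h6 : c * N ≤ M := h2.trans (by exact_mod_cast h3)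
    have h7 : (N₀ : ℝ) ≤ N := by exact_mod_cast hN
    rw [div_lt_iff₀ hc] at hN₀
    nlinarith
  choose f hf1 hf2 hf3 using h1
  let φ : ℕ → ℕ := fun k => Nat.rec (f 0 0) (fun k n => f (k + 1) n) k
  have hφ : StrictMono φ := strictMono_nat_of_lt_succ fun k => hf1 (k + 1) (φ k)
  have hφ3 : ∀ k, |gp (φ k) - x| < 1 / ((k : ℝ) + 1) := by
    intro k
    cases k with
    | zero => exact hf3 0 0
    | succ k => exact hf3 (k + 1) (φ k)
  have hφ2 : ∀ k, 2 ≤ φ k := by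
    intro k
    cases k with
    | zero => exact hf2 0 0
    | succ k => exact hf2 (k + 1) (φ k)
  refine ⟨φ, hφ, hφ2, ?_⟩
  rw [Metric.tendsto_atTop]
  intro ε hε
  obtain ⟨K, hK⟩ := exists_nat_one_div_lt hε
  refine ⟨K, fun k hk => ?_⟩
  rw [Real.dist_eq]
  refine (hφ3 k).trans_le (le_trans ?_ hK.le)
  apply one_div_le_one_div_of_le (by positivity)
  have : (K : ℝ) ≤ k := by exact_mod_cast hk
  linarith

end Pool.Agent.R524.LP
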